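import Pool.Agent.U419.CG.Ori

set_option autoImplicit false

/-!
# The recursion behind the upper bound for monochromatic convex polygons

Points are processed from left to right.  A processed point `x` has one colour `col x` to all later
points, and two labels: `lab true x`, `lab false x` are lengths of monochromatic left-turning and
right-turning chains which end at `x` and which every surviving point extends.
-/

open Finset

namespace Pool.Agent.U419.CG

theorem AllCup.extend {s : ℝ} {S : Finset Pt} {y x w : Pt} (hS : AllCup s (insert x S))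
    (hy : y ∈ S) (hlast : ∀ z ∈ S, z ≠ y → Lt z y) (hyx : Lt y x) (hxw : Lt x w)
    (hturn : 0 < ori s (x - y) (w - x)) : AllCup s (insert w (insert x S)) := by
  have hSx : ∀ z ∈ S, Lt z x := by
    intro z hz
    by_cases h : z = y
    · rw [h]; exact hyx
    · exact (hlast z hz h).trans hyx
  have hall : ∀ z ∈ insert x S, Lt z w := by
    intro z hz
    rcases mem_insert.mp hz with rfl | hz
    · exact hxw
    · exact (hSx z hz).trans hxw
  have key1 : ∀ z ∈ S, 0 < ori s (x - z) (w - x) := by
    intro z hz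
    by_cases h : z = y
    · rw [h]; exact hturn
    · have h1 := hlast z hz h
      have h2 := hS z (mem_insert_of_mem hz) y (mem_insert_of_mem hy) x (mem_insert_self _ _) h1 hyx
      have h3 := ori_trans h1 hyx hxw h2 hturn.le
      have e : x - z = (y - z) + (x - y) := by abel
      rw [e, ori_add_left]
      linarith
  have key2 : ∀ z ∈ insert x S, ∀ z' ∈ insert x S, Lt z z' → 0 < ori s (z' - z) (w - z') := by
    intro z hz z' hz' hlt
    rcases mem_insert.mp hz' with rfl | hz''
    · rcases mem_insert.mp hz with rfl | hz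
      · exact absurd hlt (Lt_irrefl _)
      · exact key1 z hz
    · have hz'x := hSx z' hz''
      have h1 := hS z hz z' hz' x (mem_insert_self _ _) hlt hz'x
      have h2 := key1 z' hz''
      have h3 := ori_trans hlt hz'x hxw h1 h2.le
      have e : w - z' = (x - z') + (w - x) := by abel
      rw [e, ori_add_right]
      linarith
  intro a ha b hb c hc hab hbc
  rcases mem_insert.mp hc with rfl | hc
  · rcases mem_insert.mp hb with rfl | hb
    · exact absurd hbc (Lt_irrefl _)
    · rcases mem_insert.mp ha with rfl | ha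
      · exact absurd (hab.trans hbc) (Lt_irrefl _)
      · exact key2 a ha b hb hab
  · have hcw := hall c hc
    rcases mem_insert.mp hb with rfl | hb
    · exact absurd (hbc.trans hcw) (Lt_irrefl _)
    · rcases mem_insert.mp ha with rfl | ha
      · exact absurd ((hab.trans hbc).trans hcw) (Lt_irrefl _)
      · exact hS a ha b hb c hc hab hbc

theorem AllCup.pair (s : ℝ) (w x : Pt) : AllCup s {w, x} := by
  intro a ha b hb c hc hab hbc
  simp only [mem_insert, mem_singleton] at ha hb hc
  rcases ha with rfl | rfl <;> rcases hb with rfl | rfl <;> rcases hc with rfl | rfl <;>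
    first
      | exact absurd hab (Lt_irrefl _)
      | exact absurd hbc (Lt_irrefl _)
      | exact absurd hbc hab.asymm

/-- All pairs of different points of `Q` have the same colour. -/
def Mono (χ : Sym2 Pt → Bool) (Q : Finset Pt) : Prop :=
  ∃ c : Bool, ∀ x ∈ Q, ∀ y ∈ Q, x ≠ y → χ s(x, y) = c

def Str (A : Finset Pt) (col : Pt → Bool) (s : ℝ) (c : Bool) (k : ℕ) (x w : Pt) : Prop :=
  ∃ S : Finset Pt, S ⊆ A ∧ S.card = k ∧ x ∈ S ∧ (∀ z ∈ S, z ≠ x → Lt z x) ∧
    (∀ z ∈ S, col z = c) ∧ AllCup s (insert w S)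

def sg (t : Bool) : ℝ := if t then 1 else -1

structure St (χ : Sym2 Pt → Bool) (P A W : Finset Pt) (col : Pt → Bool) (lab : Bool → Pt → ℕ) :
    Prop where
  hA : A ⊆ P
  hW : W ⊆ P
  hlt : ∀ x ∈ A, ∀ w ∈ W, Lt x w
  hcolA : ∀ x ∈ A, ∀ y ∈ A, Lt x y → χ s(x, y) = col x
  hcolW : ∀ x ∈ A, ∀ w ∈ W, χ s(x, w) = col x
  hstr : ∀ t, ∀ x ∈ A, ∀ w ∈ W, Str A col (sg t) (col x) (lab t x) x w

/-- The bound of the recursion. -/
def F (m : ℕ) : ℕ → ℕ
  | 0 => 1
  | r + 1 => 1 + min (r + 1) (4 * m - 2) * F m r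

section step

variable {χ : Sym2 Pt → Bool} {P A W : Finset Pt} {col : Pt → Bool} {lab : Bool → Pt → ℕ}

open Classical in
/-- new labels -/
noncomputable def L (χ : Sym2 Pt → Bool) (A : Finset Pt) (col : Pt → Bool) (lab : Bool → Pt → ℕ)
    (x : Pt) (t : Bool) (w : Pt) : ℕ :=
  1 + (A.filter (fun y => col y = χ s(x, w) ∧ 0 < ori (sg t) (x - y) (w - x))).sup (lab t)

theorem L_pos (x : Pt) (t : Bool) (w : Pt) : 1 ≤ L χ A col lab x t w := by
  unfold L; omega

open Classical in
theorem St.str_new (h : St χ P A W col lab) {x : Pt} (hx : x ∈ W)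
    (hfirst : ∀ y ∈ W, y ≠ x → Lt x y) {w : Pt} (hw : w ∈ W) (hwx : w ≠ x) (t : Bool) :
    Str (insert x A) (Function.update col x (χ s(x, w))) (sg t) (χ s(x, w))
      (L χ A col lab x t w) x w := by
  have hxw := hfirst w hw hwx
  have hxA : x ∉ A := fun hxA => Lt_irrefl _ (h.hlt x hxA x hx)
  by_cases hT : (A.filter (fun y => col y = χ s(x, w) ∧ 0 < ori (sg t) (x - y) (w - x))).Nonempty
  · obtain ⟨y, hy, hsup⟩ := Finset.exists_mem_eq_sup _ hT (lab t)
    have hL : L χ A col lab x t w = lab t y + 1 := by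
      unfold L
      rw [hsup]; omega
    rw [mem_filter] at hy
    obtain ⟨hyA, hycol, hturn⟩ := hy
    obtain ⟨S, hSA, hcard, hyS, hlast, hcolS, hcup⟩ := h.hstr t y hyA x hx
    have hyx := h.hlt y hyA x hx
    refine ⟨insert x S, insert_subset_insert _ hSA, ?_, mem_insert_self _ _, ?_, ?_, ?_⟩
    · rw [card_insert_of_notMem (fun hh => hxA (hSA hh)), hcard, hL]
    · intro z hz hzx
      rcases mem_insert.mp hz with rfl | hz
      · exact absurd rfl hzx
      · exact h.hlt z (hSA hz) x hx
    · intro z hz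
      rcases mem_insert.mp hz with rfl | hz
      · simp
      · rw [Function.update_of_ne (fun e : z = x => hxA (e ▸ hSA hz))]
        rw [hcolS z hz, hycol]
    · exact hcup.extend hyS hlast hyx hxw hturn
  · have hL : L χ A col lab x t w = 1 := by
      unfold L
      rw [not_nonempty_iff_eq_empty.mp hT]; simp
    rw [hL]
    refine ⟨{x}, by simp, by simp, by simp, ?_, ?_, AllCup.pair _ _ _⟩
    · intro z hz hzx
      exact absurd (mem_singleton.mp hz) hzx
    · intro z hz
      rw [mem_singleton.mp hz]; simp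

theorem St.new_le (h : St χ P A W col lab) {m : ℕ}
    (hno : ∀ Q ⊆ P, Q.card = m + 2 → ConvPos Q → ¬ Mono χ Q) {x : Pt} (hx : x ∈ W)
    (hfirst : ∀ y ∈ W, y ≠ x → Lt x y) {w : Pt} (hw : w ∈ W) (hwx : w ≠ x) (t : Bool) :
    L χ A col lab x t w ≤ m := by
  classical
  by_contra hcon
  push Not at hcon
  have hxw := hfirst w hw hwx
  have hxA : x ∉ A := fun hxA => Lt_irrefl _ (h.hlt x hxA x hx)
  obtain ⟨S, hSA, hcard, hxS, hlast, hcolS, hcup⟩ := h.str_new hx hfirst hw hwx t
  have hSw : ∀ z ∈ S, Lt z w := by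
    intro z hz
    by_cases hzx : z = x
    · rw [hzx]; exact hxw
    · exact (hlast z hz hzx).trans hxw
  have hwS : w ∉ S := fun hh => Lt_irrefl _ (hSw w hh)
  have hcolz : ∀ z ∈ S, z ≠ x → z ∈ A ∧ col z = χ s(x, w) := by
    intro z hz hzx
    have h1 : z ∈ A := by
      rcases mem_insert.mp (hSA hz) with h1 | h1
      · exact absurd h1 hzx
      · exact h1
    refine ⟨h1, ?_⟩
    have := hcolS z hz
    rwa [Function.update_of_ne hzx] at this
  have hmono' : ∀ z ∈ insert w S, ∀ z' ∈ insert w S, Lt z z' → χ s(z, z') = χ s(x, w) := by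
    intro z hz z' hz' hlt
    rcases mem_insert.mp hz with e | hz1
    · rcases mem_insert.mp hz' with e' | hz1'
      · rw [e, e'] at hlt
        exact absurd hlt (Lt_irrefl _)
      · rw [e] at hlt
        exact absurd hlt (hSw z' hz1').asymm
    · rcases mem_insert.mp hz' with e' | hz1'
      · rw [e']
        by_cases hzx : z = x
        · rw [hzx]
        · obtain ⟨h1, h2⟩ := hcolz z hz1 hzx
          rw [h.hcolW z h1 w hw, h2]
      · have hzx : z ≠ x := by
          rintro rfl
          by_cases hz'x : z' = z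
          · subst hz'x; exact Lt_irrefl _ hlt
          · exact (hlast z' hz1' hz'x).asymm hlt
        obtain ⟨h1, h2⟩ := hcolz z hz1 hzx
        by_cases hz'x : z' = x
        · rw [hz'x, h.hcolW z h1 x hx, h2]
        · obtain ⟨h3, h4⟩ := hcolz z' hz1' hz'x
          rw [h.hcolA z h1 z' h3 hlt, h2]
  have hmono : Mono χ (insert w S) := by
    refine ⟨χ s(x, w), fun z hz z' hz' hne => ?_⟩
    rcases Lt_or hne with h1 | h1
    · exact hmono' z hz z' hz' h1
    · rw [Sym2.eq_swap]; exact hmono' z' hz' z hz h1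
  have hsub : insert w S ⊆ P := by
    intro z hz
    rcases mem_insert.mp hz with rfl | hz
    · exact h.hW hw
    · rcases mem_insert.mp (hSA hz) with rfl | h1
      · exact h.hW hx
      · exact h.hA h1
  have hcard2 : m + 2 ≤ (insert w S).card := by
    rw [card_insert_of_notMem hwS, hcard]; omega
  obtain ⟨Q, hQ, hQc⟩ := exists_subset_card_eq hcard2
  refine hno Q (hQ.trans hsub) hQc (hcup.convPos.mono hQ) ?_
  obtain ⟨c, hc⟩ := hmono
  exact ⟨c, fun a ha b hb => hc a (hQ ha) b (hQ hb)⟩

theorem sg_ori_pos {a b c : Pt} (h : ori 1 (b - a) (c - b) ≠ 0) :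
    ∃ t, 0 < ori (sg t) (b - a) (c - b) := by
  rcases lt_or_gt_of_ne h with h | h
  · refine ⟨false, ?_⟩
    simp only [sg, Bool.false_eq_true, if_false]
    rw [ori_neg_s]; linarith
  · refine ⟨true, ?_⟩
    simpa [sg] using h

open Classical in
theorem St.label_lt (h : St χ P A W col lab) (hP : GenPos P) {x : Pt} (hx : x ∈ W)
    (hfirst : ∀ y ∈ W, y ≠ x → Lt x y) {w : Pt} (hw : w ∈ W) (hwx : w ≠ x)
    {y : Pt} (hy : y ∈ A) (hcol : col y = χ s(x, w)) : ∃ t, lab t y < L χ A col lab x t w := by
  have hyx := h.hlt y hy x hx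
  have hxw := hfirst w hw hwx
  obtain ⟨t, ht⟩ := sg_ori_pos (hP.ori_ne (h.hA hy) (h.hW hx) (h.hW hw) hyx hxw)
  refine ⟨t, ?_⟩
  unfold L
  have : lab t y ≤ (A.filter (fun y => col y = χ s(x, w) ∧
      0 < ori (sg t) (x - y) (w - x))).sup (lab t) :=
    Finset.le_sup (f := lab t) (mem_filter.mpr ⟨hy, hcol, ht⟩)
  omega

open Classical in
theorem St.L_mono (h : St χ P A W col lab) {x : Pt} (hx : x ∈ W)
    (hfirst : ∀ y ∈ W, y ≠ x → Lt x y) {w w' : Pt} (hw : w ∈ W) (hwx : w ≠ x)
    (hw' : w' ∈ W) (hwx' : w' ≠ x) (hc : χ s(x, w) = χ s(x, w')) (t : Bool)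
    (ho : 0 ≤ ori (sg t) (w - x) (w' - x)) : L χ A col lab x t w ≤ L χ A col lab x t w' := by
  unfold L
  have : (A.filter (fun y => col y = χ s(x, w) ∧ 0 < ori (sg t) (x - y) (w - x))) ⊆
      (A.filter (fun y => col y = χ s(x, w') ∧ 0 < ori (sg t) (x - y) (w' - x))) := by
    intro y hy
    rw [mem_filter] at hy ⊢
    refine ⟨hy.1, by rw [hy.2.1, hc], ?_⟩
    exact ori_trans (h.hlt y hy.1 x hx) (hfirst w hw hwx) (hfirst w' hw' hwx') hy.2.2 ho
  have := Finset.sup_mono (f := lab t) this
  omega

theorem St.L_eq (h : St χ P A W col lab) {m : ℕ}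
    (hno : ∀ Q ⊆ P, Q.card = m + 2 → ConvPos Q → ¬ Mono χ Q) {x : Pt} (hx : x ∈ W)
    (hfirst : ∀ y ∈ W, y ≠ x → Lt x y) {w w' : Pt} (hw : w ∈ W) (hwx : w ≠ x)
    (hw' : w' ∈ W) (hwx' : w' ≠ x) (hc : χ s(x, w) = χ s(x, w'))
    (he : L χ A col lab x true w + m - L χ A col lab x false w =
      L χ A col lab x true w' + m - L χ A col lab x false w') :
    L χ A col lab x true w = L χ A col lab x true w' ∧
      L χ A col lab x false w = L χ A col lab x false w' := by
  have b1 := h.new_le hno hx hfirst hw hwx false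
  have b2 := h.new_le hno hx hfirst hw' hwx' false
  rcases le_total 0 (ori 1 (w - x) (w' - x)) with ho | ho
  · have h1 := h.L_mono hx hfirst hw hwx hw' hwx' hc true (by simpa [sg] using ho)
    have h2 := h.L_mono hx hfirst hw' hwx' hw hwx hc.symm false (by
      simp only [sg, Bool.false_eq_true, if_false]
      rw [ori_neg_s, ori_swap]; simpa using ho)
    omega
  · have h1 := h.L_mono hx hfirst hw hwx hw' hwx' hc false (by
      simp only [sg, Bool.false_eq_true, if_false]
      rw [ori_neg_s]; linarith)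
    have h2 := h.L_mono hx hfirst hw' hwx' hw hwx hc.symm true (by
      simp only [sg, if_true]
      rw [ori_swap]; linarith)
    omega

theorem Str.mono {x : Pt} (hxA : x ∉ A) {c c' : Bool} {s : ℝ} {k : ℕ} {z w : Pt}
    (h : Str A col s c k z w) : Str (insert x A) (Function.update col x c') s c k z w := by
  classical
  obtain ⟨S, h1, h2, h3, h4, h5, h6⟩ := h
  refine ⟨S, h1.trans (subset_insert _ _), h2, h3, h4, ?_, h6⟩
  intro y hy
  rw [Function.update_of_ne (fun e : y = x => hxA (e ▸ h1 hy))]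
  exact h5 y hy

theorem St.step (h : St χ P A W col lab) {x : Pt} (hx : x ∈ W)
    (hfirst : ∀ y ∈ W, y ≠ x → Lt x y) {W' : Finset Pt} (hW' : ∀ w ∈ W', w ∈ W ∧ w ≠ x)
    {c : Bool} {l : Bool → ℕ} (hc : ∀ w ∈ W', χ s(x, w) = c)
    (hl : ∀ w ∈ W', ∀ t, L χ A col lab x t w = l t) :
    St χ P (insert x A) W' (Function.update col x c) (fun t => Function.update (lab t) x (l t)) := by
  classical
  have hxA : x ∉ A := fun hxA => Lt_irrefl _ (h.hlt x hxA x hx)
  have hne : ∀ z ∈ A, z ≠ x := fun z hz e => hxA (e ▸ hz)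
  refine ⟨?_, ?_, ?_, ?_, ?_, ?_⟩
  · intro z hz
    rcases mem_insert.mp hz with rfl | hz
    · exact h.hW hx
    · exact h.hA hz
  · intro w hw; exact h.hW (hW' w hw).1
  · intro z hz w hw
    obtain ⟨h1, h2⟩ := hW' w hw
    rcases mem_insert.mp hz with rfl | hz
    · exact hfirst w h1 h2
    · exact h.hlt z hz w h1
  · intro z hz z' hz' hlt
    rcases mem_insert.mp hz with e | hz1
    · rw [e] at hlt
      rcases mem_insert.mp hz' with e' | hz1'
      · rw [e'] at hlt
        exact absurd hlt (Lt_irrefl _)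
      · exact absurd hlt (h.hlt z' hz1' x hx).asymm
    · rw [Function.update_of_ne (hne z hz1)]
      rcases mem_insert.mp hz' with e' | hz1'
      · rw [e']; exact h.hcolW z hz1 x hx
      · exact h.hcolA z hz1 z' hz1' hlt
  · intro z hz w hw
    obtain ⟨h1, h2⟩ := hW' w hw
    rcases mem_insert.mp hz with rfl | hz
    · simp [hc w hw]
    · rw [Function.update_of_ne (hne z hz)]
      exact h.hcolW z hz w h1
  · intro t z hz w hw
    obtain ⟨h1, h2⟩ := hW' w hw
    rcases mem_insert.mp hz with rfl | hz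
    · have := h.str_new hx hfirst h1 h2 t
      simp only [Function.update_self]
      rw [hl w hw t, hc w hw] at this
      exact this
    · have := h.hstr t z hz w h1
      simp only [Function.update_of_ne (hne z hz)]
      exact this.mono hxA

end step

theorem main {χ : Sym2 Pt → Bool} {P : Finset Pt} {m : ℕ} (hP : GenPos P)
    (hno : ∀ Q ⊆ P, Q.card = m + 2 → ConvPos Q → ¬ Mono χ Q) (r : ℕ) :
    ∀ (A W : Finset Pt) (col : Pt → Bool) (lab : Bool → Pt → ℕ) (U : Finset (Bool × ℕ × ℕ)),
      St χ P A W col lab → U.card = r →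
      (∀ c a b, 1 ≤ a → a ≤ m → 1 ≤ b → b ≤ m → (c, a, b) ∉ U →
        ∃ y ∈ A, col y = c ∧ lab true y = a ∧ lab false y = b) → W.card ≤ F m r := by
  classical
  induction r with
  | zero =>
    intro A W col lab U h hU hlab
    rw [card_eq_zero] at hU
    subst hU
    show W.card ≤ 1
    by_contra hcon
    push Not at hcon
    have hne : W.Nonempty := card_pos.mp (by omega)
    obtain ⟨x, hx, hfirst⟩ := exists_first hne
    obtain ⟨w, hw, hwx⟩ := Finset.exists_mem_ne hcon x
    obtain ⟨y, hy, hc, ha, hb⟩ := hlab (χ s(x, w)) (L χ A col lab x true w)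
      (L χ A col lab x false w) (L_pos _ _ _) (h.new_le hno hx hfirst hw hwx true) (L_pos _ _ _)
      (h.new_le hno hx hfirst hw hwx false) (by simp)
    obtain ⟨t, ht⟩ := h.label_lt hP hx hfirst hw hwx hy hc
    cases t
    · omega
    · omega
  | succ r ih =>
    intro A W col lab U h hU hlab
    show W.card ≤ 1 + min (r + 1) (4 * m - 2) * F m r
    by_cases hne : W.Nonempty
    swap
    · rw [not_nonempty_iff_eq_empty.mp hne]; simp
    obtain ⟨x, hx, hfirst⟩ := exists_first hne
    set ell : Pt → Bool × ℕ × ℕ := fun w => (χ s(x, w), L χ A col lab x true w,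
      L χ A col lab x false w) with hell
    set W1 := W.erase x with hW1
    have hW1mem : ∀ w ∈ W1, w ∈ W ∧ w ≠ x := by
      intro w hw
      rw [hW1, mem_erase] at hw
      exact ⟨hw.2, hw.1⟩
    have hcardW : W.card = 1 + W1.card := by
      rw [hW1, card_erase_of_mem hx]
      have := card_pos.mpr hne
      omega
    have himg : W1.image ell ⊆ U := by
      intro l hl
      rw [mem_image] at hl
      obtain ⟨w, hw, rfl⟩ := hl
      obtain ⟨h1, h2⟩ := hW1mem w hw
      by_contra hcon
      obtain ⟨y, hy, hc, ha, hb⟩ := hlab (χ s(x, w)) (L χ A col lab x true w)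
        (L χ A col lab x false w) (L_pos _ _ _) (h.new_le hno hx hfirst h1 h2 true) (L_pos _ _ _)
        (h.new_le hno hx hfirst h1 h2 false) hcon
      obtain ⟨t, ht⟩ := h.label_lt hP hx hfirst h1 h2 hy hc
      cases t
      · omega
      · omega
    have hfib : ∀ l ∈ W1.image ell, (W1.filter (fun w => ell w = l)).card ≤ F m r := by
      intro l hl
      have hlU := himg hl
      refine ih (insert x A) (W1.filter (fun w => ell w = l)) (Function.update col x l.1)
        (fun t => Function.update (lab t) x (if t then l.2.1 else l.2.2)) (U.erase l) ?_ ?_ ?_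
      · refine h.step hx hfirst (fun w hw => hW1mem w (mem_filter.mp hw).1) ?_ ?_
        · intro w hw
          have := (mem_filter.mp hw).2
          rw [← this]
        · intro w hw t
          have := (mem_filter.mp hw).2
          rw [← this]
          cases t <;> simp [hell]
      · rw [card_erase_of_mem hlU, hU]; rfl
      · intro c a b h1 h2 h3 h4 hn
        have hxA : x ∉ A := fun hxA => Lt_irrefl _ (h.hlt x hxA x hx)
        by_cases he : (c, a, b) = l
        · refine ⟨x, mem_insert_self _ _, ?_, ?_, ?_⟩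
          · simp [← he]
          · simp [← he]
          · simp [← he]
        · have hn' : (c, a, b) ∉ U := fun hh => hn (mem_erase.mpr ⟨he, hh⟩)
          obtain ⟨y, hy, g1, g2, g3⟩ := hlab c a b h1 h2 h3 h4 hn'
          have hyx : y ≠ x := fun e => hxA (e ▸ hy)
          refine ⟨y, mem_insert_of_mem hy, ?_, ?_, ?_⟩
          · rw [Function.update_of_ne hyx, g1]
          · simp only [Function.update_of_ne hyx, g2]
          · simp only [Function.update_of_ne hyx, g3]
    have hc1 := Finset.card_le_mul_card_image W1 (F m r) hfib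
    have hc2 : (W1.image ell).card ≤ r + 1 := by
      rw [← hU]; exact card_le_card himg
    have hc3 : (W1.image ell).card ≤ 4 * m - 2 := by
      have hmaps : ∀ l ∈ W1.image ell, (l.1, l.2.1 + m - l.2.2) ∈
          (univ : Finset Bool) ×ˢ Icc 1 (2 * m - 1) := by
        intro l hl
        rw [mem_image] at hl
        obtain ⟨w, hw, rfl⟩ := hl
        obtain ⟨h1, h2⟩ := hW1mem w hw
        have a1 := h.new_le hno hx hfirst h1 h2 true
        have a2 := h.new_le hno hx hfirst h1 h2 false
        have a3 := L_pos (χ := χ) (A := A) (col := col) (lab := lab) x true w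
        have a4 := L_pos (χ := χ) (A := A) (col := col) (lab := lab) x false w
        simp only [mem_product, mem_univ, true_and, mem_Icc, hell]
        omega
      have hinj : Set.InjOn (fun l : Bool × ℕ × ℕ => (l.1, l.2.1 + m - l.2.2))
          (W1.image ell : Set (Bool × ℕ × ℕ)) := by
        intro l hl l' hl' he
        simp only [coe_image, Set.mem_image, mem_coe] at hl hl'
        obtain ⟨w, hw, rfl⟩ := hl
        obtain ⟨w', hw', rfl⟩ := hl'
        obtain ⟨h1, h2⟩ := hW1mem w hw
        obtain ⟨h1', h2'⟩ := hW1mem w' hw'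
        simp only [hell, Prod.mk.injEq] at he ⊢
        obtain ⟨e1, e2⟩ := he
        exact ⟨e1, h.L_eq hno hx hfirst h1 h2 h1' h2' e1 e2⟩
      have := Finset.card_le_card_of_injOn _ hmaps hinj
      refine this.trans ?_
      rw [card_product]
      simp
      omega
    have hc4 : (W1.image ell).card ≤ min (r + 1) (4 * m - 2) := le_min hc2 hc3
    have := Nat.mul_le_mul_left (F m r) hc4
    rw [hcardW, mul_comm (min (r + 1) (4 * m - 2))]
    omega

theorem main_bound {χ : Sym2 Pt → Bool} {P : Finset Pt} {m : ℕ} (hP : GenPos P)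
    (hno : ∀ Q ⊆ P, Q.card = m + 2 → ConvPos Q → ¬ Mono χ Q) : P.card ≤ F m (2 * m ^ 2) := by
  classical
  refine main hP hno (2 * m ^ 2) ∅ P (fun _ => true) (fun _ _ => 0)
    ((univ : Finset Bool) ×ˢ (Icc 1 m ×ˢ Icc 1 m)) ⟨by simp, subset_rfl, by simp, by simp, by simp,
      by simp⟩ ?_ ?_
  · rw [card_product, card_product]
    simp
    ring
  · intro c a b h1 h2 h3 h4 hn
    exact absurd (by simp [h1, h2, h3, h4]) hn

theorem F_le {m : ℕ} (hm : 1 ≤ m) (r : ℕ) : F m r + 1 ≤ 2 * (4 * m - 2) ^ r := by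
  induction r with
  | zero => simp [F]
  | succ r ih =>
    obtain ⟨K, hK⟩ : ∃ K, 4 * m - 2 = K + 2 := ⟨4 * m - 4, by omega⟩
    simp only [F]
    rw [hK] at ih ⊢
    have h1 : min (r + 1) (K + 2) * F m r ≤ (K + 2) * F m r :=
      Nat.mul_le_mul_right _ (min_le_right _ _)
    have h2 : (K + 2) * (F m r + 1) ≤ (K + 2) * (2 * (K + 2) ^ r) := Nat.mul_le_mul_left _ ih
    have h3 : (K + 2) * (2 * (K + 2) ^ r) = 2 * (K + 2) ^ (r + 1) := by ring
    rw [h3] at h2
    nlinarith

end Pool.Agent.U419.CG
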