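import Mathlib

set_option autoImplicit false

/-!
# Orientation of plane vectors, lexicographic positivity, cups and convex position
-/

open Finset

namespace Pool.Agent.U419.CG

/-- The plane. -/
abbrev Pt : Type := ℝ × ℝ

/-- Lexicographically positive vectors. -/
def LP (u : Pt) : Prop := 0 < u.1 ∨ (u.1 = 0 ∧ 0 < u.2)

/-- `s` times the determinant of the vectors `u`, `v`. -/
def ori (s : ℝ) (u v : Pt) : ℝ := s * (u.1 * v.2 - u.2 * v.1)

theorem LP.add {u v : Pt} (hu : LP u) (hv : LP v) : LP (u + v) := by
  rcases hu with h | ⟨h, h'⟩ <;> rcases hv with g | ⟨g, g'⟩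
  · exact Or.inl (by simp; linarith)
  · exact Or.inl (by simp; linarith)
  · exact Or.inl (by simp; linarith)
  · exact Or.inr ⟨by simp; linarith, by simp; linarith⟩

theorem LP.smul {u : Pt} (hu : LP u) {r : ℝ} (hr : 0 < r) : LP (r • u) := by
  rcases hu with h | ⟨h, h'⟩
  · exact Or.inl (by simpa using mul_pos hr h)
  · exact Or.inr ⟨by simp [h], by simpa using mul_pos hr h'⟩

theorem LP.ne_zero {u : Pt} (hu : LP u) : u ≠ 0 := by
  rintro rfl
  rcases hu with h | ⟨h, h'⟩
  · simp at h
  · simp at h'

theorem not_LP_zero : ¬ LP (0 : Pt) := fun h => h.ne_zero rfl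

theorem LP_or {u : Pt} (hu : u ≠ 0) : LP u ∨ LP (-u) := by
  rcases lt_trichotomy u.1 0 with h | h | h
  · exact Or.inr (Or.inl (by simpa using h))
  · rcases lt_trichotomy u.2 0 with g | g | g
    · exact Or.inr (Or.inr ⟨by simp [h], by simpa using g⟩)
    · exact absurd (Prod.ext h g) hu
    · exact Or.inl (Or.inr ⟨h, g⟩)
  · exact Or.inl (Or.inl h)

theorem not_LP_neg {u : Pt} (hu : LP u) : ¬ LP (-u) := by
  intro h
  have := hu.add h
  simp only [add_neg_cancel] at this
  exact not_LP_zero this

/-- if `r • v` is lexicographically positive and so is `v`, then `r > 0` -/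
theorem pos_of_LP_smul {v : Pt} (hv : LP v) {r : ℝ} (h : LP (r • v)) : 0 < r := by
  by_contra hr
  push Not at hr
  rcases hr.lt_or_eq with hr | hr
  · have h1 : LP ((-r) • v) := hv.smul (by linarith)
    have h2 := h.add h1
    simp only [neg_smul, add_neg_cancel] at h2
    exact not_LP_zero h2
  · subst hr
    simp only [zero_smul] at h
    exact not_LP_zero h

theorem ori_identity (s : ℝ) (u v w : Pt) :
    ori s u w • v = ori s v w • u + ori s u v • w := by
  ext <;> simp [ori] <;> ring

/-- transitivity -/
theorem ori_trans {s : ℝ} {u v w : Pt} (hu : LP u) (hv : LP v) (hw : LP w)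
    (h1 : 0 < ori s u v) (h2 : 0 ≤ ori s v w) : 0 < ori s u w := by
  apply pos_of_LP_smul hv
  rw [ori_identity]
  rcases h2.lt_or_eq with h2 | h2
  · exact (hu.smul h2).add (hw.smul h1)
  · rw [← h2, zero_smul, zero_add]
    exact hw.smul h1

theorem ori_add_left (s : ℝ) (u v w : Pt) : ori s (u + v) w = ori s u w + ori s v w := by
  simp only [ori, Prod.fst_add, Prod.snd_add]; ring

theorem ori_add_right (s : ℝ) (u v w : Pt) : ori s u (v + w) = ori s u v + ori s u w := by
  simp only [ori, Prod.fst_add, Prod.snd_add]; ring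

theorem ori_neg_s (s : ℝ) (u v : Pt) : ori (-s) u v = - ori s u v := by
  simp only [ori]; ring

theorem ori_swap (s : ℝ) (u v : Pt) : ori s u v = - ori s v u := by
  simp only [ori]; ring

/-- the point `a` precedes the point `b` lexicographically -/
def Lt (a b : Pt) : Prop := LP (b - a)

theorem Lt.trans {a b c : Pt} (h1 : Lt a b) (h2 : Lt b c) : Lt a c := by
  have := LP.add h1 h2
  have e : b - a + (c - b) = c - a := by abel
  rw [e] at this
  exact this

theorem Lt.ne {a b : Pt} (h : Lt a b) : a ≠ b := by
  rintro rfl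
  unfold Lt at h
  rw [sub_self] at h
  exact not_LP_zero h

theorem Lt_irrefl (a : Pt) : ¬ Lt a a := fun h => h.ne rfl

theorem Lt.asymm {a b : Pt} (h : Lt a b) : ¬ Lt b a := fun h' => Lt_irrefl _ (h.trans h')

theorem Lt_or {a b : Pt} (h : a ≠ b) : Lt a b ∨ Lt b a := by
  rcases LP_or (sub_ne_zero.mpr h.symm) with h | h
  · exact Or.inl h
  · right; unfold Lt; rwa [neg_sub] at h

/-- existence of a first element -/
theorem exists_first {W : Finset Pt} (hW : W.Nonempty) : ∃ x ∈ W, ∀ y ∈ W, y ≠ x → Lt x y := by
  induction W using Finset.induction_on with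
  | empty => exact absurd hW (by simp)
  | insert a s ha ih =>
    by_cases hs : s.Nonempty
    · obtain ⟨x, hx, h⟩ := ih hs
      have hne : a ≠ x := fun h => ha (h ▸ hx)
      rcases Lt_or hne with hl | hl
      · refine ⟨a, mem_insert_self _ _, fun y hy hya => ?_⟩
        rcases mem_insert.mp hy with rfl | hy
        · exact absurd rfl hya
        · by_cases hyx : y = x
          · rw [hyx]; exact hl
          · exact hl.trans (h y hy hyx)
      · refine ⟨x, mem_insert_of_mem hx, fun y hy hyx => ?_⟩
        rcases mem_insert.mp hy with rfl | hy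
        · exact hl
        · exact h y hy hyx
    · rw [not_nonempty_iff_eq_empty] at hs
      subst hs
      exact ⟨a, by simp, by intro y hy h; simp at hy; exact absurd hy h⟩

theorem exists_last {W : Finset Pt} (hW : W.Nonempty) : ∃ x ∈ W, ∀ y ∈ W, y ≠ x → Lt y x := by
  induction W using Finset.induction_on with
  | empty => exact absurd hW (by simp)
  | insert a s ha ih =>
    by_cases hs : s.Nonempty
    · obtain ⟨x, hx, h⟩ := ih hs
      have hne : a ≠ x := fun h => ha (h ▸ hx)
      rcases Lt_or hne with hl | hl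
      · refine ⟨x, mem_insert_of_mem hx, fun y hy hyx => ?_⟩
        rcases mem_insert.mp hy with rfl | hy
        · exact hl
        · exact h y hy hyx
      · refine ⟨a, mem_insert_self _ _, fun y hy hya => ?_⟩
        rcases mem_insert.mp hy with rfl | hy
        · exact absurd rfl hya
        · by_cases hyx : y = x
          · rw [hyx]; exact hl
          · exact (h y hy hyx).trans hl
    · rw [not_nonempty_iff_eq_empty] at hs
      subst hs
      exact ⟨a, by simp, by intro y hy h; simp at hy; exact absurd hy h⟩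

/-- All triples of `Q` turn in the direction given by `s`. -/
def AllCup (s : ℝ) (Q : Finset Pt) : Prop :=
  ∀ a ∈ Q, ∀ b ∈ Q, ∀ c ∈ Q, Lt a b → Lt b c → 0 < ori s (b - a) (c - b)

theorem AllCup.mono {s : ℝ} {Q R : Finset Pt} (h : AllCup s Q) (hR : R ⊆ Q) : AllCup s R :=
  fun a ha b hb c hc => h a (hR ha) b (hR hb) c (hR hc)

/-- The points of `Q` are the vertices of a convex polygon. -/
def ConvPos (Q : Finset Pt) : Prop := ConvexIndependent ℝ (fun x : (Q : Set Pt) => (x : Pt))

theorem convPos_iff {Q : Finset Pt} :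
    ConvPos Q ↔ ∀ x ∈ Q, x ∉ convexHull ℝ ((Q : Set Pt) \ {x}) := by
  unfold ConvPos
  rw [convexIndependent_set_iff_notMem_convexHull_sdiff]
  simp

theorem ConvPos.mono {Q R : Finset Pt} (h : ConvPos Q) (hR : R ⊆ Q) : ConvPos R := by
  rw [convPos_iff] at h ⊢
  intro x hx hx'
  refine h x (hR hx) (convexHull_mono ?_ hx')
  intro y hy
  exact ⟨hR hy.1, hy.2⟩

theorem convex_LP_gt (a : Pt) : Convex ℝ {z : Pt | LP (z - a)} := by
  rw [convex_iff_forall_pos]
  intro x hx y hy r t hr ht hrt
  simp only [Set.mem_ofPred_eq] at hx hy ⊢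
  have e : r • x + t • y - a = r • (x - a) + t • (y - a) := by
    have : a = (r + t) • a := by rw [hrt, one_smul]
    nth_rewrite 1 [this]
    module
  rw [e]
  exact (hx.smul hr).add (hy.smul ht)

theorem convex_LP_lt (a : Pt) : Convex ℝ {z : Pt | LP (a - z)} := by
  rw [convex_iff_forall_pos]
  intro x hx y hy r t hr ht hrt
  simp only [Set.mem_ofPred_eq] at hx hy ⊢
  have e : a - (r • x + t • y) = r • (a - x) + t • (a - y) := by
    have : a = (r + t) • a := by rw [hrt, one_smul]
    nth_rewrite 1 [this]
    module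
  rw [e]
  exact (hx.smul hr).add (hy.smul ht)

theorem convex_ori (s : ℝ) (v b : Pt) : Convex ℝ {z : Pt | 0 < ori s v (z - b)} := by
  rw [convex_iff_forall_pos]
  intro x hx y hy r t hr ht hrt
  simp only [Set.mem_ofPred_eq] at hx hy ⊢
  have e : ori s v (r • x + t • y - b) = r * ori s v (x - b) + t * ori s v (y - b) := by
    have ht' : t = 1 - r := by linarith
    subst ht'
    simp [ori]; ring
  rw [e]
  have := mul_pos hr hx
  have := mul_pos ht hy
  linarith

/-- A set all of whose triples turn the same way is in convex position. -/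
theorem AllCup.convPos {s : ℝ} {Q : Finset Pt} (h : AllCup s Q) : ConvPos Q := by
  classical
  rw [convPos_iff]
  intro b hb hmem
  by_cases hL : (Q.filter (fun z => Lt z b)).Nonempty
  · by_cases hR : (Q.filter (fun z => Lt b z)).Nonempty
    · obtain ⟨a, ha, ha'⟩ := exists_last hL
      obtain ⟨c, hc, hc'⟩ := exists_first hR
      rw [mem_filter] at ha hc
      have hab := ha.2
      have hbc := hc.2
      have habc : 0 < ori s (b - a) (c - b) := h a ha.1 b hb c hc.1 hab hbc
      have key : ((Q : Set Pt) \ {b}) ⊆ {z : Pt | 0 < ori s (c - a) (z - b)} := by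
        rintro z ⟨hz, hzb⟩
        simp only [Set.mem_ofPred_eq]
        have hzb' : z ≠ b := hzb
        have hA : 0 < ori s (c - a) (a - b) := by
          have : ori s (c - a) (a - b) = ori s (b - a) (c - b) := by
            simp only [ori, Prod.fst_sub, Prod.snd_sub]; ring
          rw [this]; exact habc
        have hC : 0 < ori s (c - a) (c - b) := by
          have : ori s (c - a) (c - b) = ori s (b - a) (c - b) := by
            simp only [ori, Prod.fst_sub, Prod.snd_sub]; ring
          rw [this]; exact habc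
        rcases Lt_or hzb' with hz1 | hz1
        · by_cases hza : z = a
          · rw [hza]; exact hA
          · have hz2 := ha' z (mem_filter.mpr ⟨hz, hz1⟩) hza
            have h3 := h z hz a ha.1 c hc.1 hz2 (hab.trans hbc)
            have : ori s (c - a) (z - b) = ori s (a - z) (c - a) + ori s (c - a) (a - b) := by
              simp only [ori, Prod.fst_sub, Prod.snd_sub]; ring
            rw [this]; linarith
        · by_cases hzc : z = c
          · rw [hzc]; exact hC
          · have hz2 := hc' z (mem_filter.mpr ⟨hz, hz1⟩) hzc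
            have h3 := h a ha.1 c hc.1 z hz (hab.trans hbc) hz2
            have : ori s (c - a) (z - b) = ori s (c - a) (z - c) + ori s (c - a) (c - b) := by
              simp only [ori, Prod.fst_sub, Prod.snd_sub]; ring
            rw [this]; linarith
      have h4 := convexHull_min key (convex_ori s _ _) hmem
      simp [ori] at h4
    · have key : ((Q : Set Pt) \ {b}) ⊆ {z : Pt | LP (b - z)} := by
        rintro z ⟨hz, hzb⟩
        have hzb' : z ≠ b := hzb
        rcases Lt_or hzb' with hz1 | hz1
        · exact hz1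
        · exact absurd ⟨z, mem_filter.mpr ⟨hz, hz1⟩⟩ hR
      have h4 := convexHull_min key (convex_LP_lt _) hmem
      simp only [Set.mem_ofPred_eq, sub_self] at h4
      exact not_LP_zero h4
  · have key : ((Q : Set Pt) \ {b}) ⊆ {z : Pt | LP (z - b)} := by
      rintro z ⟨hz, hzb⟩
      have hzb' : z ≠ b := hzb
      rcases Lt_or hzb' with hz1 | hz1
      · exact absurd ⟨z, mem_filter.mpr ⟨hz, hz1⟩⟩ hL
      · exact hz1
    have h4 := convexHull_min key (convex_LP_gt _) hmem
    simp only [Set.mem_ofPred_eq, sub_self] at h4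
    exact not_LP_zero h4

/-- no three points of `P` are collinear -/
def GenPos (P : Finset Pt) : Prop :=
  ∀ a ∈ P, ∀ b ∈ P, ∀ c ∈ P, a ≠ b → a ≠ c → b ≠ c → ¬ Collinear ℝ ({a, b, c} : Set Pt)

theorem collinear_of_ori {a b c : Pt} (hab : a ≠ b) (h : ori 1 (b - a) (c - b) = 0) :
    Collinear ℝ ({a, b, c} : Set Pt) := by
  rw [collinear_iff_of_mem (p₀ := b) (by simp)]
  refine ⟨b - a, ?_⟩
  intro p hp
  simp only [Set.mem_insert_iff, Set.mem_singleton_iff] at hp
  simp only [ori, Prod.fst_sub, Prod.snd_sub, one_mul] at h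
  rcases hp with rfl | rfl | rfl
  · refine ⟨-1, ?_⟩
    simp
  · exact ⟨0, by simp⟩
  · by_cases h1 : b.1 - a.1 = 0
    · have h2 : b.2 - a.2 ≠ 0 := by
        intro h2
        exact hab (Prod.ext (by linarith) (by linarith))
      refine ⟨(p.2 - b.2) / (b.2 - a.2), ?_⟩
      ext
      · simp only [vadd_eq_add, Prod.fst_add, Prod.smul_fst, Prod.fst_sub, smul_eq_mul]
        have h3 : (b.2 - a.2) * (p.1 - b.1) = 0 := by
          rw [h1] at h; linarith
        have h4 : p.1 - b.1 = 0 := by
          rcases mul_eq_zero.mp h3 with h3 | h3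
          · exact absurd h3 h2
          · exact h3
        rw [h1]; linarith
      · simp only [vadd_eq_add, Prod.snd_add, Prod.smul_snd, Prod.snd_sub, smul_eq_mul]
        rw [div_mul_cancel₀ _ h2]; ring
    · refine ⟨(p.1 - b.1) / (b.1 - a.1), ?_⟩
      ext
      · simp only [vadd_eq_add, Prod.fst_add, Prod.smul_fst, Prod.fst_sub, smul_eq_mul]
        rw [div_mul_cancel₀ _ h1]; ring
      · simp only [vadd_eq_add, Prod.snd_add, Prod.smul_snd, Prod.snd_sub, smul_eq_mul]
        field_simp
        linarith

theorem GenPos.ori_ne {P : Finset Pt} (hP : GenPos P) {a b c : Pt} (ha : a ∈ P) (hb : b ∈ P)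
    (hc : c ∈ P) (hab : Lt a b) (hbc : Lt b c) : ori 1 (b - a) (c - b) ≠ 0 := fun h =>
  hP a ha b hb c hc hab.ne (hab.trans hbc).ne hbc.ne (collinear_of_ori hab.ne h)

end Pool.Agent.U419.CG
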